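import Pool.Agent.QUD.StmtsX

/-!
MP_5b0138_an, squad QUD, row XPL.
-/

set_option autoImplicit false

namespace Pool.Agent.QUD.H80

open MeasureTheory Complex Filter Topology ProbabilityTheory Pool.Agent.H16Iso Pool.Agent.H62T
open Pool.Agent.AEU Pool.Agent.XQ Pool.Agent.QUD
open Pool.Agent.H1Gen (det CCW poly)
open Pool.Agent.H62T.H85 (nrm off)

theorem opn_sds {n : ℕ} [NeZero n] (hn : 3 ≤ n) {v : Fin n → ℂ} (hv : CCW v) :
    opn (sds v) = poly v := by
  have h1 : poly v = Poly (nrm v) (off v) := Pool.Agent.H62T.H85.poly_eq hn hv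
  rw [h1]
  ext x
  constructor
  · intro hx i
    exact hx (nrm v i, off v i) (Finset.mem_image.2 ⟨i, Finset.mem_univ _, rfl⟩)
  · intro hx s hs
    obtain ⟨i, _, rfl⟩ := Finset.mem_image.1 hs
    exact hx i

theorem xpl (h1 : CmsStmt) (h2 : IdxStmt) (_h3 : QsdStmt) (h4 : ClvStmt) (h5 : FnxStmt) :
    XplStmt := by
  intro hfb m _ v w hv hcl hm hw hs
  obtain ⟨hq, hc⟩ := h4 v hv hcl
  have hpg := (h2 m w hm hw).1
  have e1 : opn (sds v) = poly v := opn_sds (by norm_num) hv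
  have e2 : opn (sds w) = poly w := opn_sds hm hw
  obtain ⟨x, y, l0, a1, a2, a3, a4, a5, a6, a7, a8⟩ := h1 hfb (sds v) (sds w) hq hc hpg (by
    intro k
    rw [e1, e2]
    exact hs k)
  exact h5 m v w hv hm hw hs x y l0 a1 a2 a3 a4 a5 a6 a7 a8

end Pool.Agent.QUD.H80
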