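import Pool.Agent.Helper80_QUD.XPL
import Pool.Agent.QUD.StmtsY

/-!
MP_5b0138_an, squad QUD, row XPY.
-/

set_option autoImplicit false

namespace Pool.Agent.QUD.H80

open MeasureTheory Complex Filter Topology ProbabilityTheory Pool.Agent.H16Iso Pool.Agent.H62T
open Pool.Agent.AEU Pool.Agent.XQ Pool.Agent.QUD
open Pool.Agent.H1Gen (det CCW poly)
open Pool.Agent.H62T.H85 (nrm off)

theorem card_sds {n : ℕ} [NeZero n] (hn : 3 ≤ n) {v : Fin n → ℂ} (hv : CCW v) :
    (sds v).card = n := by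
  have hinj : Function.Injective fun i => ((nrm v i, off v i) : HP) :=
    Pool.Agent.H62T.H85.side_inj hn hv
  have h1 : sds v = Finset.univ.image (fun i => ((nrm v i, off v i) : HP)) := by
    ext s
    simp only [sds, sides, Finset.mem_image, Finset.mem_univ, true_and]
  rw [h1, Finset.card_image_of_injective _ hinj, Finset.card_univ, Fintype.card_fin]

theorem xpy (h1 : CmyStmt) (h2 : IdxStmt) (_h3 : QsdStmt) (h4 : CvyStmt) (h5 : FnxStmt)
    (h6 : T8xStmt) : XpyStmt := by
  intro hfb m _ v w hv hcl hm hw hs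
  obtain ⟨hq, hc⟩ := h4 v hv hcl
  have hm3 : 3 ≤ m := by omega
  have hpg := (h2 m w hm3 hw).1
  have e1 : opn (sds v) = poly v := opn_sds (by norm_num) hv
  have e2 : opn (sds w) = poly w := opn_sds hm3 hw
  have hcard : (sds w).card = m := card_sds hm3 hw
  rcases h1 hfb (sds v) (sds w) hq hc hpg (by
    intro k
    rw [e1, e2]
    exact hs k) with h | h | ⟨x, y, l0, a1, a2, a3, a4, a5, a6, a7, a8⟩ | h
  · omega
  · omega
  · exact h5 m v w hv hm3 hw hs x y l0 a1 a2 a3 a4 a5 a6 a7 a8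
  · exact absurd h (h6 m v w hv hm hw hs)

end Pool.Agent.QUD.H80
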